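import Pool.Agent.Lib.MP_62bfd3_lc.BW.B6
import Pool.Agent.Lib.MP_62bfd3_lc.BW.D6
import Pool.Agent.Lib.MP_62bfd3_lc.BW.Voc2
import Pool.Agent.Lib.MP_62bfd3_lc.BW.Stm

/-!
# Barwise's dichotomy can fail only for sentences of bounded Scott height, all of whose models of
computable Scott rank are low

`V` is a hyperarithmetic relational vocabulary, `φ` a sentence of `L_{ω₁ω} ∩ L_{ω₁^{CK}}`,
`omega1 (fun _ => 0)` is `ω₁^{CK}`, `Set.range omega1 = {ω₁^z : z a real}` is the set of all countable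
admissible ordinals (Sacks).
-/

namespace Pool.Agent.Results.MP_62bfd3_lc.ScottRank

open BW hiding Sat Mod HasCode HypFml Codes omega1Str SpecV BF SR specV_eq
open BWS

theorem result (V : ℕ → ℕ → Prop) (hV : HypVoc V) (φ : Fml) (hs : free φ = ∅) (hc : HypFml φ)
    (hne : SpecV V φ ≠ Set.range omega1) :
    (∀ α ∈ SpecV V φ, ∀ β ∈ Set.range omega1, β ≤ α → β ∈ SpecV V φ) ∧
    (∃ α < Ordinal.omega 1, ∀ (A : Type) (M : Str A), Countable A → Nonempty A → InVoc V M →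
      Mod M φ → SR M < α) ∧
    ∀ (A : Type) (M : Str A), Countable A → Nonempty A → InVoc V M → Mod M φ →
      (∀ β < omega1 (fun _ => 0), ∃ (B : Type) (N : Str B), Countable B ∧ Nonempty B ∧ InVoc V N ∧
        Mod N φ ∧ omega1Str N = omega1 (fun _ => 0) ∧ BF M N β [] []) ∧
      (SR M < omega1 (fun _ => 0) → omega1Str M = omega1 (fun _ => 0)) := by
  simp only [BWS.specV_eq, BWS.mod_iff, BWS.sR_eq, BWS.bf_iff, BWS.omega1Str_eq] at hne ⊢
  have hs' : (withVoc V φ).free = ∅ := free_withVoc (by rw [← free_eq]; exact hs)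
  have hc' := hypFml_withVoc hV ((hypFml_iff φ).1 hc)
  rw [BW.specV_eq] at hne
  refine ⟨?_, ?_, ?_⟩
  · rw [BW.specV_eq]
    rintro α hα _ ⟨z, rfl⟩ hz
    exact spec_down hs' hc' hα z hz
  · by_contra h
    push Not at h
    refine hne (spec_unbounded hs' hc' fun α hα => ?_)
    obtain ⟨A, M, hA, hN, hVM, hM, hSR⟩ := h α hα
    exact ⟨A, M, hA, hN, (mod_withVoc M V φ).2 ⟨hM, hVM⟩, hSR⟩
  · intro A M hA hN hVM hM
    have hM' := (mod_withVoc M V φ).2 ⟨hM, hVM⟩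
    refine ⟨fun β hβ => ?_, fun hSR => low_of_sr hs' hc' hne M hM' hSR⟩
    obtain ⟨x, hx, h1, h2, h3⟩ := exists_low hs' hc' hne M hM' hβ
    obtain ⟨a, ha⟩ := hx.ne
    have : Nonempty {a : ℕ // dom x a} := ⟨⟨a, ha⟩⟩
    obtain ⟨h4, h5⟩ := (mod_withVoc (strOf x) V φ).1 h1
    exact ⟨_, strOf x, inferInstance, inferInstance, h5, h4, h2, h3⟩

end Pool.Agent.Results.MP_62bfd3_lc.ScottRank
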